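import Pool.Agent.R34.DP.Stm

/-!
Project DP, piece PROD: `GoodOp` for products.
-/

open MeasureTheory ProbabilityTheory Set Filter
open scoped NNReal ENNReal Topology

namespace R34.DP

namespace ProdAux

section

variable {X Y : Type} [NormedAddCommGroup X] [NormedAddCommGroup Y]

theorem adm_fst {F : X × Y → ℝ} (hF : Adm F) (y : Y) : Adm (fun x => F (x, y)) := by
  obtain ⟨⟨K, hK⟩, B, hB⟩ := hF
  refine ⟨⟨K, ?_⟩, B, fun x => hB _⟩
  refine LipschitzWith.of_dist_le_mul fun x x' => ?_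
  refine (hK.dist_le_mul (x, y) (x', y)).trans (le_of_eq ?_)
  rw [Prod.dist_eq]
  simp

theorem adm_snd {F : X × Y → ℝ} (hF : Adm F) (x : X) : Adm (fun y => F (x, y)) := by
  obtain ⟨⟨K, hK⟩, B, hB⟩ := hF
  refine ⟨⟨K, ?_⟩, B, fun x => hB _⟩
  refine LipschitzWith.of_dist_le_mul fun y y' => ?_
  refine (hK.dist_le_mul (x, y) (x, y')).trans (le_of_eq ?_)
  rw [Prod.dist_eq]
  simp

theorem lip_fst {F : X × Y → ℝ} {K : ℝ≥0} (hK : LipschitzWith K F) (y : Y) :
    LipschitzWith K (fun x => F (x, y)) := by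
  refine LipschitzWith.of_dist_le_mul fun x x' => ?_
  refine (hK.dist_le_mul (x, y) (x', y)).trans (le_of_eq ?_)
  rw [Prod.dist_eq]
  simp

theorem lip_snd {F : X × Y → ℝ} {K : ℝ≥0} (hK : LipschitzWith K F) (x : X) :
    LipschitzWith K (fun y => F (x, y)) := by
  refine LipschitzWith.of_dist_le_mul fun y y' => ?_
  refine (hK.dist_le_mul (x, y) (x, y')).trans (le_of_eq ?_)
  rw [Prod.dist_eq]
  simp

theorem adm_add_const {Z : Type} [PseudoMetricSpace Z] {F : Z → ℝ} (hF : Adm F) (c : ℝ) :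
    Adm (fun z => F z + c) := by
  obtain ⟨⟨K, hK⟩, B, hB⟩ := hF
  refine ⟨⟨K, ?_⟩, B + |c|, fun z => (abs_add_le _ _).trans (by linarith [hB z])⟩
  refine LipschitzWith.of_dist_le_mul fun x x' => ?_
  rw [dist_add_right]
  exact hK.dist_le_mul x x'

variable [PartialOrder X] [MeasurableSpace X] [PartialOrder Y] [MeasurableSpace Y]
  {μ : Measure X} {ν : Measure Y} {T : (X → ℝ) → X → ℝ} {S : (Y → ℝ) → Y → ℝ} {C D : ℝ≥0}

theorem mono_le (h : GoodOp μ T C) {F G : X → ℝ} (hF : Adm F) (hG : Adm G)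
    (hle : ∀ x, G x ≤ F x) (x : X) : T G x ≤ T F x := by
  have := h.lower 0 le_rfl F G hF hG (fun x => by rw [add_zero]; exact hle x) x
  rwa [add_zero] at this

theorem diff_le (h : GoodOp μ T C) {F G : X → ℝ} (hF : Adm F) (hG : Adm G) {c : ℝ}
    (hle : ∀ x, G x ≤ F x + c) (x : X) : T G x ≤ T F x + c := by
  have h1 := mono_le h (adm_add_const hF c) hG hle x
  rw [h.const c F hF] at h1
  exact h1

theorem abs_diff_le (h : GoodOp μ T C) {F G : X → ℝ} (hF : Adm F) (hG : Adm G) {c : ℝ}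
    (hle : ∀ x, |F x - G x| ≤ c) (x : X) : |T F x - T G x| ≤ c := by
  rw [abs_le]
  constructor
  · have := diff_le h hF hG (c := c) (fun x => by
      have := (abs_le.1 (hle x)).1
      linarith) x
    linarith
  · have := diff_le h hG hF (c := c) (fun x => by
      have := (abs_le.1 (hle x)).2
      linarith) x
    linarith

theorem op1_lip (h : GoodOp μ T C) {F : X × Y → ℝ} (hF : Adm F) {K : ℝ≥0}
    (hK : LipschitzWith K F) : LipschitzWith ((C + 1) * K) (op1 T F) := by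
  refine LipschitzWith.of_dist_le_mul fun p p' => ?_
  have h1 : dist (T (fun x => F (x, p.2)) p.1) (T (fun x => F (x, p.2)) p'.1) ≤
      C * K * dist p.1 p'.1 :=
    (h.lip K _ (adm_fst hF p.2) (lip_fst hK p.2)).dist_le_mul p.1 p'.1
  have h2 : dist (T (fun x => F (x, p.2)) p'.1) (T (fun x => F (x, p'.2)) p'.1) ≤
      K * dist p.2 p'.2 := by
    rw [Real.dist_eq]
    refine abs_diff_le h (adm_fst hF p.2) (adm_fst hF p'.2) (fun x => ?_) p'.1
    rw [← Real.dist_eq]
    refine (hK.dist_le_mul (x, p.2) (x, p'.2)).trans (le_of_eq ?_)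
    rw [Prod.dist_eq]
    simp
  have h3 := dist_triangle (T (fun x => F (x, p.2)) p.1) (T (fun x => F (x, p.2)) p'.1)
    (T (fun x => F (x, p'.2)) p'.1)
  have h4 : dist p.1 p'.1 ≤ dist p p' := le_max_left _ _
  have h5 : dist p.2 p'.2 ≤ dist p p' := le_max_right _ _
  have h6 : (C : ℝ) * K * dist p.1 p'.1 ≤ C * K * dist p p' :=
    mul_le_mul_of_nonneg_left h4 (by positivity)
  have h7 : (K : ℝ) * dist p.2 p'.2 ≤ K * dist p p' := mul_le_mul_of_nonneg_left h5 (by positivity)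
  show dist (T (fun x => F (x, p.2)) p.1) (T (fun x => F (x, p'.2)) p'.1) ≤ _
  push_cast
  calc _ ≤ _ := h3
    _ ≤ C * K * dist p.1 p'.1 + K * dist p.2 p'.2 := add_le_add h1 h2
    _ ≤ C * K * dist p p' + K * dist p p' := add_le_add h6 h7
    _ = (C + 1) * K * dist p p' := by ring

theorem op2_lip (h : GoodOp ν S D) {F : X × Y → ℝ} (hF : Adm F) {K : ℝ≥0}
    (hK : LipschitzWith K F) : LipschitzWith ((D + 1) * K) (op2 S F) := by
  refine LipschitzWith.of_dist_le_mul fun p p' => ?_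
  have h1 : dist (S (fun y => F (p.1, y)) p.2) (S (fun y => F (p.1, y)) p'.2) ≤
      D * K * dist p.2 p'.2 :=
    (h.lip K _ (adm_snd hF p.1) (lip_snd hK p.1)).dist_le_mul p.2 p'.2
  have h2 : dist (S (fun y => F (p.1, y)) p'.2) (S (fun y => F (p'.1, y)) p'.2) ≤
      K * dist p.1 p'.1 := by
    rw [Real.dist_eq]
    refine abs_diff_le h (adm_snd hF p.1) (adm_snd hF p'.1) (fun y => ?_) p'.2
    rw [← Real.dist_eq]
    refine (hK.dist_le_mul (p.1, y) (p'.1, y)).trans (le_of_eq ?_)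
    rw [Prod.dist_eq]
    simp
  have h3 := dist_triangle (S (fun y => F (p.1, y)) p.2) (S (fun y => F (p.1, y)) p'.2)
    (S (fun y => F (p'.1, y)) p'.2)
  have h4 : dist p.1 p'.1 ≤ dist p p' := le_max_left _ _
  have h5 : dist p.2 p'.2 ≤ dist p p' := le_max_right _ _
  have h6 : (D : ℝ) * K * dist p.2 p'.2 ≤ D * K * dist p p' :=
    mul_le_mul_of_nonneg_left h5 (by positivity)
  have h7 : (K : ℝ) * dist p.1 p'.1 ≤ K * dist p p' := mul_le_mul_of_nonneg_left h4 (by positivity)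
  show dist (S (fun y => F (p.1, y)) p.2) (S (fun y => F (p'.1, y)) p'.2) ≤ _
  push_cast
  calc _ ≤ _ := h3
    _ ≤ D * K * dist p.2 p'.2 + K * dist p.1 p'.1 := add_le_add h1 h2
    _ ≤ D * K * dist p p' + K * dist p p' := add_le_add h6 h7
    _ = (D + 1) * K * dist p p' := by ring

theorem op1_bdd (h : GoodOp μ T C) {F : X × Y → ℝ} (hF : Adm F) {B : ℝ} (hB : ∀ p, |F p| ≤ B)
    (p : X × Y) : |op1 T F p| ≤ B :=
  h.bdd B _ (adm_fst hF p.2) (fun x => hB (x, p.2)) p.1

theorem op2_bdd (h : GoodOp ν S D) {F : X × Y → ℝ} (hF : Adm F) {B : ℝ} (hB : ∀ p, |F p| ≤ B)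
    (p : X × Y) : |op2 S F p| ≤ B :=
  h.bdd B _ (adm_snd hF p.1) (fun y => hB (p.1, y)) p.2

theorem op1_adm (h : GoodOp μ T C) {F : X × Y → ℝ} (hF : Adm F) : Adm (op1 T F) := by
  obtain ⟨⟨K, hK⟩, B, hB⟩ := id hF
  exact ⟨⟨_, op1_lip h hF hK⟩, B, op1_bdd h hF hB⟩

theorem op2_adm (h : GoodOp ν S D) {F : X × Y → ℝ} (hF : Adm F) : Adm (op2 S F) := by
  obtain ⟨⟨K, hK⟩, B, hB⟩ := id hF
  exact ⟨⟨_, op2_lip h hF hK⟩, B, op2_bdd h hF hB⟩

end

theorem integrable_adm {Z : Type} [PseudoMetricSpace Z] [MeasurableSpace Z] [BorelSpace Z]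
    [SecondCountableTopology Z] {μ : Measure Z} [IsProbabilityMeasure μ] {F : Z → ℝ}
    (hF : Adm F) : Integrable F μ := by
  obtain ⟨⟨K, hK⟩, B, hB⟩ := hF
  exact Integrable.of_bound hK.continuous.aestronglyMeasurable B
    (Eventually.of_forall fun z => hB z)

end ProdAux

open ProdAux in
theorem t_PROD : S_PROD := by
  intro X Y _ _ _ _ _ _ _ _ _ _ μ ν _ _ T S C D hT hS
  refine ⟨(D + 1) * (C + 1), ?_⟩
  refine ⟨?_, ?_, ?_, ?_, ?_, ?_, ?_, ?_⟩
  · intro K F hF hK
    have h1 := op1_lip hT hF hK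
    have h2 := op2_lip hS (op1_adm hT hF) h1
    rw [mul_assoc]
    exact h2
  · intro B F hF hB
    exact op2_bdd hS (op1_adm hT hF) (op1_bdd hT hF hB)
  · intro c F hF
    have h1 : op1 T (fun p => F p + c) = fun p => op1 T F p + c := by
      funext p
      exact congrFun (hT.const c _ (adm_fst hF p.2)) p.1
    show op2 S (op1 T (fun p => F p + c)) = _
    rw [h1]
    funext p
    exact congrFun (hS.const c _ (adm_snd (op1_adm hT hF) p.1)) p.2
  · intro F hF
    have hH := op1_adm hT hF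
    have hG := op2_adm hS hH
    have e1 : ∫ p, op2 S (op1 T F) p ∂(μ.prod ν) = ∫ p, op1 T F p ∂(μ.prod ν) := by
      rw [integral_prod _ (integrable_adm hG), integral_prod _ (integrable_adm hH)]
      refine integral_congr_ae (Eventually.of_forall fun x => ?_)
      exact hS.int _ (adm_snd hH x)
    have e2 : ∫ p, op1 T F p ∂(μ.prod ν) = ∫ p, F p ∂(μ.prod ν) := by
      rw [integral_prod_symm _ (integrable_adm hH), integral_prod_symm _ (integrable_adm hF)]
      refine integral_congr_ae (Eventually.of_forall fun y => ?_)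
      exact hT.int _ (adm_fst hF y)
    exact e1.trans e2
  · intro F hF p p' hpp
    have hH := op1_adm hT hF
    have h1 : S (fun y => op1 T F (p.1, y)) p.2 ≤ S (fun y => op1 T F (p.1, y)) p'.2 :=
      hS.mono_out _ (adm_snd hH p.1) hpp.2
    have h2 : S (fun y => op1 T F (p.1, y)) p'.2 ≤ S (fun y => op1 T F (p'.1, y)) p'.2 := by
      refine mono_le hS (adm_snd hH p'.1) (adm_snd hH p.1) (fun y => ?_) p'.2
      exact hT.mono_out _ (adm_fst hF y) hpp.1
    exact h1.trans h2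
  · intro F hF hmon
    have h1 : op1 T F = F := by
      funext p
      have := hT.fix (fun x => F (x, p.2)) (adm_fst hF p.2)
        (fun x x' hx => hmon (Prod.mk_le_mk.2 ⟨hx, le_rfl⟩))
      exact congrFun this p.1
    show op2 S (op1 T F) = F
    rw [h1]
    funext p
    have := hS.fix (fun y => F (p.1, y)) (adm_snd hF p.1)
      (fun y y' hy => hmon (Prod.mk_le_mk.2 ⟨le_rfl, hy⟩))
    exact congrFun this p.2
  · intro a ha F G hF hG hle
    have hHF := op1_adm hT hF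
    have hHG := op1_adm hT hG
    have h1 : ∀ x y, op1 T G (x, y) ≤ op1 T F (x + a.1, y + a.2) := by
      intro x y
      exact hT.lower a.1 ha.1 (fun x => F (x, y + a.2)) (fun x => G (x, y)) (adm_fst hF _)
        (adm_fst hG _) (fun x => hle (x, y)) x
    intro p
    exact hS.lower a.2 ha.2 (fun y => op1 T F (p.1 + a.1, y)) (fun y => op1 T G (p.1, y))
      (adm_snd hHF _) (adm_snd hHG _) (fun y => h1 p.1 y) p.2
  · intro a ha F G hF hG hle
    have hHF := op1_adm hT hF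
    have hHG := op1_adm hT hG
    have h1 : ∀ x y c₁ c₂, 0 ≤ c₁ → c₁ ≤ a.1 → 0 ≤ c₂ → c₂ ≤ a.2 →
        op1 T F (x + c₁, y + c₂) ≤ op1 T G (x, y) := by
      intro x y c₁ c₂ h1 h2 h3 h4
      exact hT.upper a.1 ha.1 (fun x => F (x, y + c₂)) (fun x => G (x, y)) (adm_fst hF _)
        (adm_fst hG _) (fun x c hc hc' => hle (x, y) (c, c₂) ⟨hc, h3⟩ ⟨hc', h4⟩) x c₁ h1 h2
    intro p c hc0 hca
    exact hS.upper a.2 ha.2 (fun y => op1 T F (p.1 + c.1, y)) (fun y => op1 T G (p.1, y))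
      (adm_snd hHF _) (adm_snd hHG _)
      (fun y c' hc' hc'' => h1 p.1 y c.1 c' hc0.1 hca.1 hc' hc'') p.2 c.2 hc0.2 hca.2

end R34.DP
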